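import Pool.Agent.Helper92.UM.Defs

set_option autoImplicit false

open Finset
open scoped Classical

namespace Pool.Agent.Helper92.UM

open Pool.Agent.Helper98.Lang Pool.Agent.Helper73.LF
open Pool.Agent.Helper92.LFU (nd_nn Pr_nn log_up pairs nat_log_le)

lemma PV_nn {m : ℕ} (θ : Fin m → ℝ) (M : Fin m → ℕ) (h : ℕ) : 0 ≤ PV θ M h :=
  Finset.prod_nonneg fun _ _ => le_min (Nat.cast_nonneg _) (one_div_nonneg.2 (nd_nn _))

lemma PV_le {m : ℕ} (θ : Fin m → ℝ) (M : Fin m → ℕ) (H h : ℕ) (hM : ∀ i, M i ≤ H) :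
    PV θ M h ≤ Pr θ H h := by
  refine Finset.prod_le_prod (fun _ _ => le_min (Nat.cast_nonneg _) (one_div_nonneg.2 (nd_nn _)))
    fun i _ => min_le_min ?_ le_rfl
  have : (0 : ℝ) ≤ H := Nat.cast_nonneg _
  have h2 : (M i : ℝ) ≤ H := by exact_mod_cast hM i
  linarith

lemma sumPV {m : ℕ} (x : Fin m → ℝ) (M : Fin m → ℕ) (H s Y : ℕ) (hM : ∀ i, M i ≤ H) (hs : 1 ≤ s) :
    ∑ y ∈ Icc 1 Y, PV x M (s * y) ≤ ∑ y ∈ Icc 1 (s * Y), Pr x H y := by
  calc ∑ y ∈ Icc 1 Y, PV x M (s * y) ≤ ∑ y ∈ Icc 1 Y, Pr x H (s * y) :=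
        Finset.sum_le_sum fun y _ => PV_le _ _ _ _ hM
    _ = ∑ y ∈ (Icc 1 Y).image (fun y => s * y), Pr x H y := by
        rw [Finset.sum_image]
        intro a _ b _ hab
        exact Nat.eq_of_mul_eq_mul_left hs hab
    _ ≤ ∑ y ∈ Icc 1 (s * Y), Pr x H y := by
        refine Finset.sum_le_sum_of_subset_of_nonneg ?_ fun y _ _ => Pr_nn _ _ _
        intro y hy
        obtain ⟨z, hz, rfl⟩ := Finset.mem_image.1 hy
        have h1 := Finset.mem_Icc.1 hz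
        exact Finset.mem_Icc.2 ⟨Nat.mul_pos hs h1.1, Nat.mul_le_mul_left s h1.2⟩

/-- one block -/
lemma block {m : ℕ} (x : Fin m → ℝ) {e c δ CS Cτ CL c2 : ℝ} (he : 0 < e) (hc : 0 < c)
    (hδ : 0 < δ) (hδ1 : δ ≤ 1 / 4) (hCS : 0 < CS) (hCτ : 0 < Cτ) (hCL : 0 < CL)
    (hc2 : c2 = Real.log 2 ^ (1 + e))
    (hsum : ∀ Y H : ℕ, 1 ≤ H → ∑ y ∈ Icc 1 Y, Pr x H y ≤ CS * (Y : ℝ) ^ (1 + δ) * (H : ℝ) ^ δ)
    (hτ : ∀ n : ℕ, n ≠ 0 → (n.divisors.card : ℝ) ≤ Cτ * (n : ℝ) ^ δ)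
    (hlog : ∀ q : ℕ, 2 ≤ q → Real.log (q : ℝ) ^ (1 + e) ≤ CL * (q : ℝ) ^ δ)
    {M : Fin m → ℕ} {H d s i : ℕ} {K : ℝ} (hMH : ∀ i, M i ≤ H) (hM : 1 ≤ H) (hd : 1 ≤ d) (hs : 1 ≤ s) (hK : 1 ≤ K)
    (hMK : (H : ℝ) ≤ K) (hdK : (d : ℝ) ≤ K) (hsK : (s : ℝ) ≤ K) (huK : (2 : ℝ) ^ i ≤ K)
    (S : Finset ℕ) (hS2 : ∀ q ∈ S, 2 ≤ q) (hSi : ∀ q ∈ S, 2 ^ i ≤ q ∧ q < 2 ^ (i + 1)) :
    ∑ q ∈ S, (d : ℝ) * tq e c q *
        ∑ h ∈ Ico 1 ⌊1 / (2 * Pool.Agent.Helper87.MD.et c e d q)⌋₊,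
          PV x M (s * (h * (q / Nat.gcd d q)))
      ≤ (c / c2 * Cτ ^ 2 * ((8 * (CL / (2 * c)) + 1) ^ δ) ^ 2 * CS * (8 * (CL / (2 * c)) + 1)) *
        (K ^ δ) ^ 10 * ((s : ℝ) * 2 ^ i) := by
  have hl2 : 0 < Real.log 2 := Real.log_pos (by norm_num)
  have hc20 : 0 < c2 := by rw [hc2]; positivity
  set C3 : ℝ := CL / (2 * c) with hC3
  have hC30 : 0 < C3 := by positivity
  set C4 : ℝ := 8 * C3 + 1 with hC4
  have hC40 : 1 ≤ C4 := by rw [hC4]; linarith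
  set u : ℝ := (2 : ℝ) ^ i with hu
  have hu1 : 1 ≤ u := one_le_pow₀ (by norm_num)
  have hu0 : 0 < u := by linarith
  have hK0 : 0 < K := by linarith
  set P : ℝ := K ^ δ with hP
  have hP1 : 1 ≤ P := Real.one_le_rpow hK hδ.le
  have hP0 : 0 < P := by linarith
  have hd0 : (0 : ℝ) < d := by exact_mod_cast hd
  have hd1 : (1 : ℝ) ≤ d := by exact_mod_cast hd
  have hs0 : (0 : ℝ) < s := by exact_mod_cast hs
  set Yr : ℝ := C3 * (2 * u) ^ (2 + δ) / d with hYr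
  have hYr0 : 0 < Yr := by positivity
  -- size of `Yr`
  have hdY : (d : ℝ) * Yr ≤ C4 * u ^ 2 * P := by
    have e1 : (d : ℝ) * Yr = C3 * (2 * u) ^ (2 + δ) := by rw [hYr]; field_simp
    rw [e1]
    have e2 : (2 * u) ^ (2 + δ) = (2 : ℝ) ^ (2 + δ) * (u ^ 2 * u ^ δ) := by
      rw [Real.mul_rpow (by norm_num) hu0.le, Real.rpow_add hu0]
      congr 2
      exact_mod_cast Real.rpow_natCast u 2
    have e3 : (2 : ℝ) ^ (2 + δ) ≤ 8 := by
      calc (2 : ℝ) ^ (2 + δ) ≤ (2 : ℝ) ^ (3 : ℝ) :=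
            Real.rpow_le_rpow_of_exponent_le (by norm_num) (by linarith)
        _ = 8 := by norm_num
    have e4 : u ^ δ ≤ P := Real.rpow_le_rpow hu0.le huK hδ.le
    rw [e2]
    calc C3 * ((2 : ℝ) ^ (2 + δ) * (u ^ 2 * u ^ δ)) ≤ C3 * (8 * (u ^ 2 * P)) := by gcongr
      _ = (8 * C3) * (u ^ 2 * P) := by ring
      _ ≤ C4 * (u ^ 2 * P) := by
          refine mul_le_mul_of_nonneg_right (by rw [hC4]; linarith) (by positivity)
      _ = C4 * u ^ 2 * P := by ring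
  have hPK : P ≤ K := by
    calc P ≤ K ^ (1 : ℝ) := Real.rpow_le_rpow_of_exponent_le hK (by linarith)
      _ = K := Real.rpow_one K
  have hYK : Yr ≤ C4 * K ^ 3 := by
    have : Yr ≤ (d : ℝ) * Yr := by nlinarith
    calc Yr ≤ C4 * u ^ 2 * P := this.trans hdY
      _ ≤ C4 * K ^ 2 * K := by gcongr
      _ = C4 * K ^ 3 := by ring
  have hPk : ∀ k : ℕ, (K ^ k) ^ δ = P ^ k := by
    intro k
    rw [hP, ← Real.rpow_natCast, ← Real.rpow_natCast, ← Real.rpow_mul hK0.le,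
      ← Real.rpow_mul hK0.le, mul_comm]
  -- the range of the products
  set Y : ℕ := ⌊Yr⌋₊ with hY
  have hYle : (Y : ℝ) ≤ Yr := Nat.floor_le hYr0.le
  have hrange : ∀ q ∈ S, ∀ h ∈ Ico 1 ⌊1 / (2 * Pool.Agent.Helper87.MD.et c e d q)⌋₊,
      h * (q / Nat.gcd d q) ≤ Y := by
    intro q hq h hh
    have hq2 := hS2 q hq
    have hqr : (2 : ℝ) ≤ q := by exact_mod_cast hq2
    have hLq : 0 < Real.log (q : ℝ) := Real.log_pos (by linarith)
    have hg0 : 0 < Nat.gcd d q := Nat.gcd_pos_of_pos_left q hd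
    have hdg : 0 < d / Nat.gcd d q := Nat.div_pos (Nat.le_of_dvd hd (Nat.gcd_dvd_left d q)) hg0
    have hdg' : (0 : ℝ) < ((d / Nat.gcd d q : ℕ) : ℝ) := by exact_mod_cast hdg
    set et : ℝ := Pool.Agent.Helper87.MD.et c e d q with het
    have het0 : et = c * ((d / Nat.gcd d q : ℕ) : ℝ) / (q * Real.log (q : ℝ) ^ (1 + e)) := rfl
    have hetp : 0 < et := by rw [het0]; positivity
    have h1 : (h : ℝ) ≤ 1 / (2 * et) := by
      have a1 := (Finset.mem_Ico.1 hh).2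
      calc (h : ℝ) ≤ (⌊1 / (2 * et)⌋₊ : ℕ) := by exact_mod_cast a1.le
        _ ≤ 1 / (2 * et) := Nat.floor_le (by positivity)
    have h2 : (h : ℝ) * (2 * et) ≤ 1 := by
      rw [le_div_iff₀ (by positivity)] at h1; exact h1
    have h3 : (h : ℝ) * (2 * (c * ((d / Nat.gcd d q : ℕ) : ℝ)))
        ≤ q * Real.log (q : ℝ) ^ (1 + e) := by
      have a2 : (h : ℝ) * (2 * et) = (h : ℝ) * (2 * (c * ((d / Nat.gcd d q : ℕ) : ℝ)))
          / (q * Real.log (q : ℝ) ^ (1 + e)) := by rw [het0]; ring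
      rw [a2, div_le_one (by positivity)] at h2
      exact h2
    have h4 : ((h * (q / Nat.gcd d q) : ℕ) : ℝ) * d
        = (h : ℝ) * ((d / Nat.gcd d q : ℕ) : ℝ) * q := by
      have a3 : d / Nat.gcd d q * Nat.gcd d q = d := Nat.div_mul_cancel (Nat.gcd_dvd_left d q)
      have a4 : q / Nat.gcd d q * Nat.gcd d q = q := Nat.div_mul_cancel (Nat.gcd_dvd_right d q)
      have a5 : h * (q / Nat.gcd d q) * d = h * (d / Nat.gcd d q) * q := by
        calc h * (q / Nat.gcd d q) * d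
            = h * (q / Nat.gcd d q) * (d / Nat.gcd d q * Nat.gcd d q) := by rw [a3]
          _ = h * (d / Nat.gcd d q) * (q / Nat.gcd d q * Nat.gcd d q) := by ring
          _ = h * (d / Nat.gcd d q) * q := by rw [a4]
      exact_mod_cast a5
    have h5 : ((h * (q / Nat.gcd d q) : ℕ) : ℝ) * d ≤ C3 * (q : ℝ) ^ (2 + δ) := by
      rw [h4]
      have a6 : (h : ℝ) * ((d / Nat.gcd d q : ℕ) : ℝ) ≤
          q * Real.log (q : ℝ) ^ (1 + e) / (2 * c) := by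
        rw [le_div_iff₀ (by positivity)]
        linarith
      calc (h : ℝ) * ((d / Nat.gcd d q : ℕ) : ℝ) * q
          ≤ q * Real.log (q : ℝ) ^ (1 + e) / (2 * c) * q := by gcongr
        _ ≤ q * (CL * (q : ℝ) ^ δ) / (2 * c) * q := by
            have := hlog q hq2
            gcongr
        _ = C3 * (q : ℝ) ^ (2 + δ) := by
            rw [Real.rpow_add (by linarith), hC3]
            have : (q : ℝ) ^ (2 : ℝ) = q * q := by
              rw [show (2 : ℝ) = ((2 : ℕ) : ℝ) by norm_num, Real.rpow_natCast]; ring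
            rw [this]; ring
    have h6 : (q : ℝ) ≤ 2 * u := by
      have a7 := (hSi q hq).2.le
      calc (q : ℝ) ≤ ((2 ^ (i + 1) : ℕ) : ℝ) := by exact_mod_cast a7
        _ = 2 * u := by rw [hu]; push_cast; ring
    have h7 : (q : ℝ) ^ (2 + δ) ≤ (2 * u) ^ (2 + δ) :=
      Real.rpow_le_rpow (by linarith) h6 (by linarith)
    refine Nat.le_floor ?_
    rw [hYr, le_div_iff₀ hd0]
    calc ((h * (q / Nat.gcd d q) : ℕ) : ℝ) * d ≤ C3 * (q : ℝ) ^ (2 + δ) := h5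
      _ ≤ C3 * (2 * u) ^ (2 + δ) := by gcongr
  -- the threshold
  have htq : ∀ q ∈ S, tq e c q ≤ c / (u * c2) := by
    intro q hq
    have hq2 := hS2 q hq
    have hqr : (2 : ℝ) ≤ q := by exact_mod_cast hq2
    have h6 : u ≤ (q : ℝ) := by
      have a7 := (hSi q hq).1
      calc u = ((2 ^ i : ℕ) : ℝ) := by rw [hu]; push_cast; ring
        _ ≤ q := by exact_mod_cast a7
    have h8 : c2 ≤ Real.log (q : ℝ) ^ (1 + e) := by
      rw [hc2]
      exact Real.rpow_le_rpow hl2.le (Real.log_le_log (by norm_num) hqr) (by linarith)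
    unfold tq
    exact div_le_div_of_nonneg_left hc.le (by positivity) (mul_le_mul h6 h8 hc20.le (by linarith))
  have htq0 : ∀ q ∈ S, 0 ≤ tq e c q := by
    intro q hq
    have hqr : (2 : ℝ) ≤ q := by exact_mod_cast hS2 q hq
    have hLq : 0 < Real.log (q : ℝ) := Real.log_pos (by linarith)
    unfold tq; positivity
  set D : ℝ := Cτ * (C4 ^ δ * P ^ 3) * (Cτ * P) with hD
  have hD0 : 0 < D := by positivity
  have hDD : ∀ y ∈ Icc 1 Y, ((y.divisors.card * d.divisors.card : ℕ) : ℝ) ≤ D := by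
    intro y hy
    have hy1 := Finset.mem_Icc.1 hy
    have b1 : (y.divisors.card : ℝ) ≤ Cτ * (C4 ^ δ * P ^ 3) := by
      refine (hτ y (by omega)).trans ?_
      have b2 : (y : ℝ) ≤ C4 * K ^ 3 := by
        calc (y : ℝ) ≤ Y := by exact_mod_cast hy1.2
          _ ≤ Yr := hYle
          _ ≤ _ := hYK
      have b3 : (y : ℝ) ^ δ ≤ C4 ^ δ * P ^ 3 := by
        calc (y : ℝ) ^ δ ≤ (C4 * K ^ 3) ^ δ := Real.rpow_le_rpow (Nat.cast_nonneg _) b2 hδ.le
          _ = C4 ^ δ * P ^ 3 := by rw [Real.mul_rpow (by linarith) (by positivity), hPk]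
      gcongr
    have b4 : (d.divisors.card : ℝ) ≤ Cτ * P := by
      refine (hτ d (by omega)).trans ?_
      have : (d : ℝ) ^ δ ≤ P := Real.rpow_le_rpow hd0.le hdK hδ.le
      gcongr
    push_cast
    rw [hD]
    gcongr
  -- assembly
  have hA1 : ∑ q ∈ S, (d : ℝ) * tq e c q *
        ∑ h ∈ Ico 1 ⌊1 / (2 * Pool.Agent.Helper87.MD.et c e d q)⌋₊,
          PV x M (s * (h * (q / Nat.gcd d q)))
      ≤ (d : ℝ) * (c / (u * c2)) * ∑ q ∈ S,
        ∑ h ∈ Ico 1 ⌊1 / (2 * Pool.Agent.Helper87.MD.et c e d q)⌋₊,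
          PV x M (s * (h * (q / Nat.gcd d q))) := by
    rw [Finset.mul_sum]
    refine Finset.sum_le_sum fun q hq => ?_
    refine mul_le_mul_of_nonneg_right ?_ (Finset.sum_nonneg fun h _ => PV_nn _ _ _)
    exact mul_le_mul_of_nonneg_left (htq q hq) hd0.le
  have hA2 := pairs hd S (fun q => ⌊1 / (2 * Pool.Agent.Helper87.MD.et c e d q)⌋₊)
    (fun y => PV x M (s * y)) (fun y => PV_nn _ _ _) D hDD
    (fun q hq => by have := hS2 q hq; omega) hrange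
  have hA3 : ∑ y ∈ Icc 1 Y, PV x M (s * y) ≤ CS * (((s : ℝ) * Yr) * (C4 ^ δ * P ^ 4)) * P := by
    refine (sumPV x M H s Y hMH hs).trans ((hsum (s * Y) H hM).trans ?_)
    have b5 : ((s * Y : ℕ) : ℝ) ≤ (s : ℝ) * Yr := by
      push_cast
      gcongr
    have b6 : (s : ℝ) * Yr ≤ C4 * K ^ 4 := by
      calc (s : ℝ) * Yr ≤ K * (C4 * K ^ 3) := by gcongr
        _ = C4 * K ^ 4 := by ring
    have b7 : ((s * Y : ℕ) : ℝ) ^ (1 + δ) ≤ ((s : ℝ) * Yr) * (C4 ^ δ * P ^ 4) := by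
      calc ((s * Y : ℕ) : ℝ) ^ (1 + δ) ≤ ((s : ℝ) * Yr) ^ (1 + δ) :=
            Real.rpow_le_rpow (Nat.cast_nonneg _) b5 (by linarith)
        _ = ((s : ℝ) * Yr) * ((s : ℝ) * Yr) ^ δ := by
            rw [Real.rpow_add (by positivity), Real.rpow_one]
        _ ≤ ((s : ℝ) * Yr) * (C4 * K ^ 4) ^ δ := by
            have := Real.rpow_le_rpow (by positivity) b6 hδ.le
            gcongr
        _ = ((s : ℝ) * Yr) * (C4 ^ δ * P ^ 4) := by
            rw [Real.mul_rpow (by linarith) (by positivity), hPk]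
    have b8 : (H : ℝ) ^ δ ≤ P := Real.rpow_le_rpow (Nat.cast_nonneg _) hMK hδ.le
    gcongr
  calc ∑ q ∈ S, (d : ℝ) * tq e c q *
        ∑ h ∈ Ico 1 ⌊1 / (2 * Pool.Agent.Helper87.MD.et c e d q)⌋₊,
          PV x M (s * (h * (q / Nat.gcd d q)))
      ≤ (d : ℝ) * (c / (u * c2)) * (D * (CS * (((s : ℝ) * Yr) * (C4 ^ δ * P ^ 4)) * P)) := by
        refine hA1.trans (mul_le_mul_of_nonneg_left (hA2.trans ?_) (by positivity))
        exact mul_le_mul_of_nonneg_left hA3 hD0.le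
    _ = (c / (u * c2)) * D * CS * (s : ℝ) * (C4 ^ δ * P ^ 4) * P * ((d : ℝ) * Yr) := by ring
    _ ≤ (c / (u * c2)) * D * CS * (s : ℝ) * (C4 ^ δ * P ^ 4) * P * (C4 * u ^ 2 * P) := by
        gcongr
    _ = (c / c2 * Cτ ^ 2 * (C4 ^ δ) ^ 2 * CS * C4) * P ^ 10 * ((s : ℝ) * u) := by
        rw [hD]
        field_simp

theorem blkm_of (hG : GSum) : GBlkM := by
  intro m x hx e c A α he hc hα hA
  set κ0 : ℝ := 1 - A - α with hκ0
  have hκ00 : 0 < κ0 := by rw [hκ0]; linarith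
  set δ : ℝ := min (κ0 / 40) (1 / 4) with hδd
  have hδ : 0 < δ := lt_min (by positivity) (by norm_num)
  have hδ1 : δ ≤ 1 / 4 := min_le_right _ _
  have hδ2 : δ ≤ κ0 / 40 := min_le_left _ _
  obtain ⟨CS, hCS, hsum⟩ := hG m x hx δ hδ
  obtain ⟨Cτ, hCτ, hτ⟩ := Pool.Agent.Helper92.Field.divisor_bound hδ
  obtain ⟨CL, hCL, hlog⟩ := log_up he hδ
  obtain ⟨CN, hCN, hnl⟩ := nat_log_le hδ
  have hl2 : 0 < Real.log 2 := Real.log_pos (by norm_num)
  set c2 : ℝ := Real.log 2 ^ (1 + e) with hc2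
  have hc20 : 0 < c2 := by rw [hc2]; positivity
  set C5 : ℝ := (c / c2 * Cτ ^ 2 * ((8 * (CL / (2 * c)) + 1) ^ δ) ^ 2 * CS *
    (8 * (CL / (2 * c)) + 1)) with hC5
  have hC50 : 0 < C5 := by rw [hC5]; positivity
  refine ⟨δ, max 2 ⌈(C5 * CN) ^ (1 / δ)⌉₊, hδ, ?_⟩
  intro M d s hN hs hsK
  set K : ℝ := (((∏ i, M i) * d : ℕ) : ℝ) with hK
  have hK2 : (2 : ℝ) ≤ K := by
    rw [hK]; exact_mod_cast (le_max_left _ _).trans hN
  have hK1 : 1 ≤ K := by linarith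
  have hKC : C5 * CN ≤ K ^ δ := by
    have h1 : (C5 * CN) ^ (1 / δ) ≤ K := by
      calc (C5 * CN) ^ (1 / δ) ≤ ((⌈(C5 * CN) ^ (1 / δ)⌉₊ : ℕ) : ℝ) := Nat.le_ceil _
        _ ≤ K := by rw [hK]; exact_mod_cast (le_max_right _ _).trans hN
    calc C5 * CN = ((C5 * CN) ^ (1 / δ)) ^ δ := by
          rw [← Real.rpow_mul (by positivity)]
          rw [one_div_mul_cancel hδ.ne', Real.rpow_one]
      _ ≤ K ^ δ := Real.rpow_le_rpow (by positivity) h1 hδ.le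
  rcases lt_or_ge A 0 with hA0 | hA0
  · have h1 : K ^ A < 1 := Real.rpow_lt_one_of_one_lt_of_neg (by linarith) hA0
    have h2 : ⌊K ^ A⌋₊ = 0 := Nat.floor_eq_zero.2 h1
    rw [h2]
    simp only [show Icc 2 0 = (∅ : Finset ℕ) from rfl, Finset.sum_empty]
    positivity
  have hα1 : α < 1 := by linarith
  have hA1 : A < 1 := by linarith
  -- sizes
  have hprod : 0 < (∏ i, M i) * d := by
    have : 2 ≤ (∏ i, M i) * d := (le_max_left _ _).trans hN
    omega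
  have hd : 1 ≤ d := by
    rcases Nat.eq_zero_or_pos d with h0 | h0
    · rw [h0] at hprod; simp at hprod
    · exact h0
  have hMi : ∀ i, 1 ≤ M i := by
    intro i
    rcases Nat.eq_zero_or_pos (M i) with h0 | h0
    · rw [Finset.prod_eq_zero (Finset.mem_univ i) h0] at hprod; simp at hprod
    · exact h0
  have hM : 1 ≤ ∏ i, M i := by
    have h0 : 0 < ∏ i, M i := Finset.prod_pos fun i _ => hMi i
    omega
  have hMH : ∀ i, M i ≤ ∏ i, M i := fun i =>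
    Nat.le_of_dvd hM (Finset.dvd_prod_of_mem M (Finset.mem_univ i))
  have hdK : (d : ℝ) ≤ K := by
    rw [hK]
    exact_mod_cast Nat.le_mul_of_pos_left d hM
  have hMK : ((∏ i, M i : ℕ) : ℝ) ≤ K := by
    rw [hK]
    exact_mod_cast Nat.le_mul_of_pos_right _ hd
  have hsK1 : (s : ℝ) ≤ K := by
    refine hsK.trans ?_
    calc K ^ α ≤ K ^ (1 : ℝ) := Real.rpow_le_rpow_of_exponent_le hK1 hα1.le
      _ = K := Real.rpow_one K
  set X : ℕ := ⌊K ^ A⌋₊ with hX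
  have hXK : (X : ℝ) ≤ K ^ A := Nat.floor_le (by positivity)
  have hXK1 : (X : ℝ) ≤ K := by
    refine hXK.trans ?_
    calc K ^ A ≤ K ^ (1 : ℝ) := Real.rpow_le_rpow_of_exponent_le hK1 hA1.le
      _ = K := Real.rpow_one K
  set F : ℕ → ℝ := fun q => (d : ℝ) * tq e c q *
        ∑ h ∈ Ico 1 ⌊1 / (2 * Pool.Agent.Helper87.MD.et c e d q)⌋₊,
          PV x M (s * (h * (q / Nat.gcd d q))) with hF
  have hmaps : ∀ q ∈ Icc 2 X, Nat.log 2 q ∈ range (Nat.log 2 X + 1) := by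
    intro q hq
    have := Nat.log_mono_right (b := 2) (Finset.mem_Icc.1 hq).2
    exact Finset.mem_range.2 (by omega)
  set P : ℝ := K ^ δ with hP
  have hP1 : 1 ≤ P := Real.one_le_rpow hK1 hδ.le
  have hP0 : 0 < P := by linarith
  have hblk : ∀ i ∈ range (Nat.log 2 X + 1), ∑ q ∈ (Icc 2 X).filter (fun q => Nat.log 2 q = i), F q
      ≤ C5 * P ^ 10 * (K ^ α * K ^ A) := by
    intro i _
    rcases ((Icc 2 X).filter (fun q => Nat.log 2 q = i)).eq_empty_or_nonempty with h0 | ⟨q0, hq0⟩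
    · rw [h0, Finset.sum_empty]; positivity
    · have hSi : ∀ q ∈ (Icc 2 X).filter (fun q => Nat.log 2 q = i),
          2 ^ i ≤ q ∧ q < 2 ^ (i + 1) := by
        intro q hq
        have h1 := Finset.mem_filter.1 hq
        have h2 := (Finset.mem_Icc.1 h1.1).1
        rw [← h1.2]
        exact ⟨Nat.pow_log_le_self 2 (by omega), Nat.lt_pow_succ_log_self (by norm_num) q⟩
      have hu : (2 : ℝ) ^ i ≤ K ^ A := by
        have h1 := (hSi q0 hq0).1
        have h2 := (Finset.mem_Icc.1 (Finset.mem_filter.1 hq0).1).2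
        calc (2 : ℝ) ^ i = ((2 ^ i : ℕ) : ℝ) := by push_cast; ring
          _ ≤ X := by exact_mod_cast h1.trans h2
          _ ≤ K ^ A := hXK
      have huK : (2 : ℝ) ^ i ≤ K := by
        refine hu.trans ?_
        calc K ^ A ≤ K ^ (1 : ℝ) := Real.rpow_le_rpow_of_exponent_le hK1 hA1.le
          _ = K := Real.rpow_one K
      have hb := block x he hc hδ hδ1 hCS hCτ hCL hc2 hsum hτ hlog hMH hM hd hs hK1 hMK hdK hsK1 huK
        ((Icc 2 X).filter (fun q => Nat.log 2 q = i))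
        (fun q hq => (Finset.mem_Icc.1 (Finset.mem_filter.1 hq).1).1) hSi
      refine hb.trans ?_
      have h3 : (s : ℝ) * 2 ^ i ≤ K ^ α * K ^ A :=
        mul_le_mul hsK hu (by positivity) (by positivity)
      exact mul_le_mul_of_nonneg_left h3 (by positivity)
  calc ∑ q ∈ Icc 2 X, F q
      = ∑ i ∈ range (Nat.log 2 X + 1), ∑ q ∈ (Icc 2 X).filter (fun q => Nat.log 2 q = i), F q :=
        (Finset.sum_fiberwise_of_maps_to hmaps F).symm
    _ ≤ ∑ i ∈ range (Nat.log 2 X + 1), C5 * P ^ 10 * (K ^ α * K ^ A) := Finset.sum_le_sum hblk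
    _ = ((Nat.log 2 X + 1 : ℕ) : ℝ) * (C5 * P ^ 10 * (K ^ α * K ^ A)) := by
        rw [Finset.sum_const, Finset.card_range, nsmul_eq_mul]
    _ ≤ (CN * P) * (C5 * P ^ 10 * (K ^ α * K ^ A)) := by
        have := hnl X K hK1 hXK1
        gcongr
    _ = (C5 * CN) * P ^ 11 * (K ^ α * K ^ A) := by ring
    _ ≤ P * P ^ 11 * (K ^ α * K ^ A) := by gcongr
    _ = K ^ (12 * δ + (α + A)) := by
        have h1 : P * P ^ 11 = K ^ (12 * δ) := by
          rw [hP, ← pow_succ', mul_comm 12 δ, Real.rpow_mul (by linarith)]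
          norm_num
        rw [h1, ← Real.rpow_add (by linarith), ← Real.rpow_add (by linarith)]
    _ ≤ K ^ (1 - δ) := by
        refine Real.rpow_le_rpow_of_exponent_le hK1 ?_
        have : A + α = 1 - κ0 := by rw [hκ0]; ring
        linarith

end Pool.Agent.Helper92.UM
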