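import Pool.Agent.Helper92.UM.Defs

/-!
# The Fourier bound for boxes (MP_c307ca_nt)
-/

set_option autoImplicit false

open Finset

namespace Pool.Agent.Helper92.UM

open Pool.Agent.Helper98.Lang Pool.Agent.Helper73.LF Pool.Agent.Helper8.Lang
open Pool.Agent.Helper37.LF (ec_sum)

lemma sym_bound (M : ℕ) (φ : ℝ) (hφ : 0 < nd φ) :
    ‖∑ a ∈ Icc 1 M, ec ((a : ℝ) * φ)‖ ≤ min (M : ℝ) (1 / nd φ) := by
  apply le_min
  · refine (norm_sum_le _ _).trans ?_
    simp only [norm_ec, sum_const, Nat.card_Icc, nsmul_eq_mul, mul_one]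
    simp
  · refine (geom_bound _ φ hφ).trans ?_
    have : 0 ≤ 1 / nd φ := by positivity
    linarith

/-- the box sum of the character -/
lemma box_sum {m : ℕ} (M : Fin m → ℕ) (θ : Fin m → ℝ) (c : ℝ) :
    ∑ a ∈ Fintype.piFinset (fun i : Fin m => Icc 1 (M i)), ec (c * ∑ i, (a i : ℝ) * θ i) =
      ∏ i, ∑ x ∈ Icc 1 (M i), ec ((x : ℝ) * (c * θ i)) := by
  rw [Finset.prod_univ_sum]
  refine Finset.sum_congr rfl fun a _ => ?_
  rw [Finset.mul_sum, ec_sum]
  refine Finset.prod_congr rfl fun i _ => ?_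
  congr 1
  ring

lemma box_bound {m : ℕ} (M : Fin m → ℕ) (θ : Fin m → ℝ)
    (hθ : ∀ h : ℕ, 1 ≤ h → ∀ i, 0 < nd (h * θ i)) (j k : ℕ) (hjk : j ≠ k) :
    ‖∑ a ∈ Fintype.piFinset (fun i : Fin m => Icc 1 (M i)),
      ec (((j : ℝ) - k) * ∑ i, (a i : ℝ) * θ i)‖ ≤ PV θ M (if j < k then k - j else j - k) := by
  rw [box_sum, norm_prod, PV]
  refine Finset.prod_le_prod (fun _ _ => norm_nonneg _) fun i _ => ?_
  split_ifs with h
  · have h1 : ((j : ℝ) - k) * θ i = -(((k - j : ℕ) : ℝ) * θ i) := by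
      rw [Nat.cast_sub h.le]; ring
    have h2 := hθ (k - j) (by omega) i
    rw [h1, ← nd_neg (((k - j : ℕ) : ℝ) * θ i)]
    rw [← nd_neg] at h2
    exact sym_bound (M i) _ h2
  · have h1 : ((j : ℝ) - k) * θ i = ((j - k : ℕ) : ℝ) * θ i := by
      rw [Nat.cast_sub (by omega)]
    rw [h1]
    exact sym_bound (M i) _ (hθ (j - k) (by omega) i)

lemma PM_nonneg {m : ℕ} (θ : Fin m → ℝ) (M : Fin m → ℕ) (h : ℕ) : 0 ≤ PV θ M h := by
  rw [PV]
  refine Finset.prod_nonneg fun i _ => ?_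
  have := nd_nonneg (h * θ i)
  positivity

/-- one row of the double sum -/
lemma row_bound {m : ℕ} (M : Fin m → ℕ) (T : ℕ) (θ : Fin m → ℝ) (j : ℕ) (hj : j < T) :
    ∑ k ∈ (range T).erase j, PV θ M (if j < k then k - j else j - k) ≤
      2 * ∑ h ∈ Ico 1 T, PV θ M h := by
  have hsplit : (range T).erase j = Finset.range j ∪ Ico (j + 1) T := by
    ext k; simp; omega
  have hdisj : Disjoint (Finset.range j) (Ico (j + 1) T) := by
    rw [Finset.disjoint_left]; intro k hk hk'; simp at hk hk'; omega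
  rw [hsplit, Finset.sum_union hdisj]
  have hA : ∑ k ∈ range j, PV θ M (if j < k then k - j else j - k) ≤ ∑ h ∈ Ico 1 T, PV θ M h := by
    calc ∑ k ∈ range j, PV θ M (if j < k then k - j else j - k)
        = ∑ k ∈ range j, PV θ M (j - k) := by
          refine Finset.sum_congr rfl fun k hk => ?_
          rw [mem_range] at hk
          rw [if_neg (by omega)]
      _ = ∑ h ∈ (range j).image (fun k => j - k), PV θ M h := by
          rw [Finset.sum_image]
          intro a ha b hb hab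
          simp only [coe_range, Set.mem_Iio] at ha hb
          simp only at hab
          omega
      _ ≤ ∑ h ∈ Ico 1 T, PV θ M h := by
          refine Finset.sum_le_sum_of_subset_of_nonneg ?_ (fun h _ _ => PM_nonneg θ M h)
          intro x hx
          simp only [mem_image, mem_range, mem_Ico] at hx ⊢
          omega
  have hB : ∑ k ∈ Ico (j + 1) T, PV θ M (if j < k then k - j else j - k) ≤
      ∑ h ∈ Ico 1 T, PV θ M h := by
    calc ∑ k ∈ Ico (j + 1) T, PV θ M (if j < k then k - j else j - k)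
        = ∑ k ∈ Ico (j + 1) T, PV θ M (k - j) := by
          refine Finset.sum_congr rfl fun k hk => ?_
          rw [mem_Ico] at hk
          rw [if_pos (by omega)]
      _ = ∑ h ∈ (Ico (j + 1) T).image (fun k => k - j), PV θ M h := by
          rw [Finset.sum_image]
          intro a ha b hb hab
          simp only [coe_Ico, Set.mem_Ico] at ha hb
          simp only at hab
          omega
      _ ≤ ∑ h ∈ Ico 1 T, PV θ M h := by
          refine Finset.sum_le_sum_of_subset_of_nonneg ?_ (fun h _ _ => PM_nonneg θ M h)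
          intro x hx
          simp only [mem_image, mem_Ico] at hx ⊢
          omega
  linarith

/-- the second moment over the box -/
lemma moment {m : ℕ} (M : Fin m → ℕ) (T : ℕ) (θ : Fin m → ℝ) (β : ℝ)
    (hθ : ∀ h : ℕ, 1 ≤ h → ∀ i, 0 < nd (h * θ i)) :
    ∑ a ∈ Fintype.piFinset (fun i : Fin m => Icc 1 (M i)),
      ‖DS T (β + ∑ i, (a i : ℝ) * θ i)‖ ^ 2 ≤
      T * ((∏ i, (M i : ℝ)) + 2 * ∑ h ∈ Ico 1 T, PV θ M h) := by
  set B := Fintype.piFinset (fun i : Fin m => Icc 1 (M i)) with hB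
  have hBcard : (B.card : ℝ) = (∏ i, (M i : ℝ)) := by
    rw [hB, Fintype.card_piFinset]
    simp
  have h1 : ∀ t : ℝ, ((‖DS T t‖ ^ 2 : ℝ) : ℂ) =
      ∑ j ∈ range T, ∑ k ∈ range T, ec (((j : ℝ) - k) * t) := by
    intro t
    push_cast
    rw [← Complex.mul_conj']
    unfold DS
    rw [map_sum, Finset.sum_mul_sum]
    refine Finset.sum_congr rfl fun j _ => Finset.sum_congr rfl fun k _ => ?_
    rw [← ec_neg, ← ec_add]
    congr 1
    ring
  have h3 : ((∑ a ∈ B, ‖DS T (β + ∑ i, (a i : ℝ) * θ i)‖ ^ 2 : ℝ) : ℂ) =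
      ∑ j ∈ range T, ∑ k ∈ range T, ∑ a ∈ B, ec (((j : ℝ) - k) * (β + ∑ i, (a i : ℝ) * θ i)) := by
    rw [Complex.ofReal_sum]
    simp_rw [h1]
    rw [Finset.sum_comm]
    refine Finset.sum_congr rfl fun j _ => ?_
    rw [Finset.sum_comm]
  have h0 : 0 ≤ ∑ a ∈ B, ‖DS T (β + ∑ i, (a i : ℝ) * θ i)‖ ^ 2 :=
    Finset.sum_nonneg fun _ _ => by positivity
  rw [← abs_of_nonneg h0, ← Real.norm_eq_abs, ← Complex.norm_real, h3]
  refine (norm_sum_le _ _).trans ?_
  have h4 : ∀ j ∈ range T, ‖∑ k ∈ range T, ∑ a ∈ B, ec (((j : ℝ) - k) * (β + ∑ i, (a i : ℝ) * θ i))‖ ≤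
      (∏ i, (M i : ℝ)) + 2 * ∑ h ∈ Ico 1 T, PV θ M h := by
    intro j hj
    rw [← Finset.add_sum_erase _ _ hj]
    refine (norm_add_le _ _).trans ?_
    apply add_le_add
    · refine (norm_sum_le _ _).trans ?_
      simp only [norm_ec, sum_const, nsmul_eq_mul, mul_one]
      exact hBcard.le
    · refine (norm_sum_le _ _).trans ?_
      refine le_trans (Finset.sum_le_sum fun k hk => ?_) (row_bound M T θ j (mem_range.1 hj))
      rw [mem_erase] at hk
      have h5 : ∑ a ∈ B, ec (((j : ℝ) - k) * (β + ∑ i, (a i : ℝ) * θ i)) =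
          ec (((j : ℝ) - k) * β) * ∑ a ∈ B, ec (((j : ℝ) - k) * ∑ i, (a i : ℝ) * θ i) := by
        rw [Finset.mul_sum]
        refine Finset.sum_congr rfl fun a _ => ?_
        rw [← ec_add, mul_add]
      rw [h5, norm_mul, norm_ec, one_mul]
      exact box_bound M θ hθ j k (Ne.symm hk.1)
  calc ∑ j ∈ range T, ‖∑ k ∈ range T, ∑ a ∈ B, ec (((j : ℝ) - k) * (β + ∑ i, (a i : ℝ) * θ i))‖
      ≤ ∑ j ∈ range T, ((∏ i, (M i : ℝ)) + 2 * ∑ h ∈ Ico 1 T, PV θ M h) :=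
        Finset.sum_le_sum h4
    _ = T * ((∏ i, (M i : ℝ)) + 2 * ∑ h ∈ Ico 1 T, PV θ M h) := by
        rw [Finset.sum_const, card_range, nsmul_eq_mul]

/-- **FOU1** with a shift -/
theorem foum : GFouM := by
  intro m M T θ β hT hθ S hS
  have hS : ∀ a ∈ S, (∀ i, 1 ≤ a i ∧ a i ≤ M i) ∧ nd (β + ∑ i, (a i : ℝ) * θ i) ≤ 1 / (2 * T) := by
    intro a ha
    rw [add_comm β]
    exact hS a ha
  have hpi := Real.pi_pos
  have hpi3 : 3 < Real.pi := Real.pi_gt_three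
  have hpi4 : Real.pi < 3.15 := Real.pi_lt_d2
  have hpisq : Real.pi ^ 2 / 4 ≤ 3 := by nlinarith
  have hT0 : (0 : ℝ) < T := by exact_mod_cast hT
  set B := Fintype.piFinset (fun i : Fin m => Icc 1 (M i)) with hB
  have hSB : S ⊆ B := by
    intro a ha
    rw [hB, Fintype.mem_piFinset]
    intro i
    rw [mem_Icc]
    exact (hS a ha).1 i
  have hM := moment M T θ β hθ
  have h1 : (S.card : ℝ) ≤ Real.pi ^ 2 / (4 * T ^ 2) *
      ∑ a ∈ B, ‖DS T (β + ∑ i, (a i : ℝ) * θ i)‖ ^ 2 := by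
    rw [Finset.mul_sum]
    calc (S.card : ℝ) = ∑ a ∈ S, (1 : ℝ) := by simp
      _ ≤ ∑ a ∈ S, Real.pi ^ 2 / (4 * (T : ℝ) ^ 2) * ‖DS T (β + ∑ i, (a i : ℝ) * θ i)‖ ^ 2 := by
          refine Finset.sum_le_sum fun a ha => ?_
          have h2 := DS_ge T hT _ (hS a ha).2
          calc (1 : ℝ) = Real.pi ^ 2 / (4 * T ^ 2) * (2 * T / Real.pi) ^ 2 := by
                field_simp; norm_num
            _ ≤ Real.pi ^ 2 / (4 * T ^ 2) * ‖DS T (β + ∑ i, (a i : ℝ) * θ i)‖ ^ 2 := by gcongr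
      _ ≤ _ := Finset.sum_le_sum_of_subset_of_nonneg hSB fun _ _ _ => by positivity
  have hR : 0 ≤ (∏ i, (M i : ℝ)) + 2 * ∑ h ∈ Ico 1 T, PV θ M h := by
    have : 0 ≤ ∑ h ∈ Ico 1 T, PV θ M h := Finset.sum_nonneg fun h _ => PM_nonneg θ M h
    positivity
  calc (S.card : ℝ) ≤ Real.pi ^ 2 / (4 * T ^ 2) *
        (T * ((∏ i, (M i : ℝ)) + 2 * ∑ h ∈ Ico 1 T, PV θ M h)) :=
        h1.trans (by gcongr)
    _ = (Real.pi ^ 2 / 4) / T * ((∏ i, (M i : ℝ)) + 2 * ∑ h ∈ Ico 1 T, PV θ M h) := by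
        field_simp
    _ ≤ 3 / T * ((∏ i, (M i : ℝ)) + 2 * ∑ h ∈ Ico 1 T, PV θ M h) := by gcongr

end Pool.Agent.Helper92.UM
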