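import Pool.Agent.Helper92.UM.Defs
import Pool.Agent.Helper37.LFU.QAB

set_option autoImplicit false

open Finset
open scoped Classical

namespace Pool.Agent.Helper92.UM

open Pool.Agent.Helper98.Lang Pool.Agent.Helper73.LF
open Pool.Agent.Helper87.MD Pool.Agent.Helper8.Lang

/-- the number of `a` in the box with `et < 1/2` and `nd (s a.x q') ≤ et` -/
lemma W_boundB (hF : GFouM) (m : ℕ) (x : Fin m → ℝ) (η t : ℝ) (M : Fin m → ℕ) (s q' : ℕ) (hη : 0 < η)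
    (hs : 1 ≤ s) (hq' : 1 ≤ q') (hx : ∀ h : ℕ, 1 ≤ h → ∀ i, 0 < nd (h * x i)) :
    (((Fintype.piFinset (fun i : Fin m => Icc 1 (M i))).filter (fun a : Fin m → ℕ =>
        η < 1 / 2 ∧ nd (((s : ℝ) * ∑ i, (a i : ℝ) * x i + t) * (q' : ℝ)) ≤ η)).card : ℝ)
      ≤ 12 * η * (∏ i, (M i : ℝ)) +
        24 * η * ∑ h ∈ Ico 1 ⌊1 / (2 * η)⌋₊, PV x M (s * (h * q')) := by
  have hP : ∀ h : ℕ, 0 ≤ PV x M h := by
    intro h
    rw [PV]
    refine Finset.prod_nonneg fun i _ => ?_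
    have := nd_nonneg (h * x i)
    positivity
  have hsum : 0 ≤ ∑ h ∈ Ico 1 ⌊1 / (2 * η)⌋₊, PV x M (s * (h * q')) :=
    Finset.sum_nonneg fun h _ => hP _
  rcases lt_or_ge η (1 / 2) with hlt | hge
  · set T : ℕ := ⌊1 / (2 * η)⌋₊ with hT
    have hz1 : 1 ≤ 1 / (2 * η) := by
      rw [le_div_iff₀ (by positivity)]; linarith
    have hT1 : 1 ≤ T := by
      rw [hT, Nat.one_le_floor_iff]; exact hz1
    have hT0 : (0 : ℝ) < T := by exact_mod_cast hT1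
    have hTle : (T : ℝ) ≤ 1 / (2 * η) := Nat.floor_le (by positivity)
    have hTge : 1 / (2 * η) < T + 1 := Nat.lt_floor_add_one _
    have hT4 : 3 / (T : ℝ) ≤ 12 * η := by
      have h1 : 1 / (2 * η) ≤ 2 * T := by
        have : (1 : ℝ) ≤ T := by exact_mod_cast hT1
        linarith
      rw [div_le_iff₀ (by positivity)] at h1
      rw [div_le_iff₀ hT0]
      linarith
    have hηT : η ≤ 1 / (2 * T) := by
      rw [le_div_iff₀ (by positivity)] at hTle ⊢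
      linarith
    have key := hF m M T (fun i => ((s * q' : ℕ) : ℝ) * x i) (t * q') hT1 (by
        intro h hh i
        have h1 : (h : ℝ) * (((s * q' : ℕ) : ℝ) * x i) = ((h * (s * q') : ℕ) : ℝ) * x i := by
          push_cast; ring
        rw [h1]
        exact hx _ (Nat.mul_pos hh (Nat.mul_pos hs hq')) i)
      ((Fintype.piFinset (fun i : Fin m => Icc 1 (M i))).filter (fun a : Fin m → ℕ =>
        η < 1 / 2 ∧ nd (((s : ℝ) * ∑ i, (a i : ℝ) * x i + t) * (q' : ℝ)) ≤ η)) (by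
        intro a ha
        rw [Finset.mem_filter, Fintype.mem_piFinset] at ha
        refine ⟨fun i => by simpa using ha.1 i, ?_⟩
        have h1 : ∑ i, (a i : ℝ) * (((s * q' : ℕ) : ℝ) * x i) + t * q' =
            ((s : ℝ) * ∑ i, (a i : ℝ) * x i + t) * (q' : ℝ) := by
          rw [add_mul, Finset.mul_sum, Finset.sum_mul]
          congr 1
          refine Finset.sum_congr rfl fun i _ => ?_
          push_cast; ring
        rw [h1]
        exact ha.2.2.trans hηT)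
    have hPV : ∀ h : ℕ, PV (fun i => ((s * q' : ℕ) : ℝ) * x i) M h = PV x M (s * (h * q')) := by
      intro h
      rw [PV, PV]
      refine Finset.prod_congr rfl fun i _ => ?_
      have h1 : (h : ℝ) * (((s * q' : ℕ) : ℝ) * x i) = ((s * (h * q') : ℕ) : ℝ) * x i := by
        push_cast; ring
      rw [h1]
    simp only [hPV] at key
    refine key.trans ?_
    have hM : 0 ≤ (∏ i, (M i : ℝ)) := by positivity
    calc 3 / (T : ℝ) * ((∏ i, (M i : ℝ)) + 2 * ∑ h ∈ Ico 1 T, PV x M (s * (h * q')))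
        ≤ 12 * η * ((∏ i, (M i : ℝ)) + 2 * ∑ h ∈ Ico 1 T, PV x M (s * (h * q'))) := by
          apply mul_le_mul_of_nonneg_right hT4
          linarith
      _ = _ := by ring
  · have h0 : ((Fintype.piFinset (fun i : Fin m => Icc 1 (M i))).filter (fun a : Fin m → ℕ =>
        η < 1 / 2 ∧ nd (((s : ℝ) * ∑ i, (a i : ℝ) * x i + t) * (q' : ℝ)) ≤ η)) = ∅ := by
      apply Finset.filter_false_of_mem
      intro a _ h
      linarith [h.1]
    rw [h0, Finset.card_empty, Nat.cast_zero]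
    positivity

/-- **LFU-QAB** -/
theorem oneqM (hC : CntStmt) (hF : GFouM) (m : ℕ) (x : Fin m → ℝ) (e c β : ℝ) (M : Fin m → ℕ) (d s q : ℕ) :
    0 < e → 0 < c → 1 ≤ d → 1 ≤ s → 2 ≤ q → (∀ h : ℕ, 1 ≤ h → ∀ i, 0 < nd (h * x i)) →
    (((Fintype.piFinset (fun i : Fin m => Icc 1 (M i)) ×ˢ range d).filter
        (fun y : (Fin m → ℕ) × ℕ => ∃ p : ℤ,
          |β + ((s : ℝ) * ∑ i, (y.1 i : ℝ) * x i + y.2) / d - (p : ℝ) / q|
            ≤ c / ((q : ℝ) ^ 2 * Real.log q ^ (1 + e)))).card : ℝ)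
      ≤ 16 * c * ((∏ i, (M i : ℝ)) * d) / (q * Real.log q ^ (1 + e)) +
        24 * ((d : ℝ) * tq e c q *
          ∑ h ∈ Ico 1 ⌊1 / (2 * et c e d q)⌋₊, PV x M (s * (h * (q / Nat.gcd d q)))) := by
  intro he hc hd hs hq hx
  have hdR : (0 : ℝ) < d := by exact_mod_cast hd
  have hrw : ∀ (u v : ℝ), β + (u + v) / d = (u + d * β + v) / d := by
    intro u v
    field_simp
    ring
  simp only [hrw]
  set L : ℝ := Real.log q ^ (1 + e) with hL
  have hqR : (2 : ℝ) ≤ q := by exact_mod_cast hq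
  have hq0 : (0 : ℝ) < q := by linarith
  have hlog : 0 < Real.log q := Real.log_pos (by linarith)
  have hL0 : 0 < L := Real.rpow_pos_of_pos hlog _
  set g : ℕ := Nat.gcd d q with hg
  have hg0 : 0 < g := Nat.gcd_pos_of_pos_left _ hd
  have hgd : g ∣ d := Nat.gcd_dvd_left _ _
  have hgq : g ∣ q := Nat.gcd_dvd_right _ _
  have hq'1 : 1 ≤ q / g := Nat.div_pos (Nat.le_of_dvd (by omega) hgq) hg0
  have hd'1 : 1 ≤ d / g := Nat.div_pos (Nat.le_of_dvd (by omega) hgd) hg0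
  have hη : 0 < et c e d q := by
    unfold et LL
    rw [← hg, ← hL]
    have : (0 : ℝ) < ((d / g : ℕ) : ℝ) := by exact_mod_cast hd'1
    positivity
  have hgη : (g : ℝ) * et c e d q = d * tq e c q := by
    unfold et tq LL
    rw [← hg, ← hL]
    have h1 : (g : ℝ) * ((d / g : ℕ) : ℝ) = d := by
      rw [← Nat.cast_mul, Nat.mul_div_cancel' hgd]
    calc (g : ℝ) * (c * ((d / g : ℕ) : ℝ) / (q * L)) = ((g : ℝ) * ((d / g : ℕ) : ℝ)) * (c / (q * L)) := by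
          ring
      _ = d * (c / (q * L)) := by rw [h1]
  set B := Fintype.piFinset (fun i : Fin m => Icc 1 (M i)) with hB
  have hBcard : (B.card : ℝ) = (∏ i, (M i : ℝ)) := by
    rw [hB, Fintype.card_piFinset]
    simp
  have h1 : ((B ×ˢ range d).filter (fun y : (Fin m → ℕ) × ℕ => ∃ p : ℤ,
      |((s : ℝ) * ∑ i, (y.1 i : ℝ) * x i + d * β + y.2) / d - (p : ℝ) / q| ≤ c / ((q : ℝ) ^ 2 * L))).card
      = ∑ a ∈ B, ((range d).filter (fun b : ℕ => ∃ p : ℤ,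
        |((s : ℝ) * ∑ i, (a i : ℝ) * x i + d * β + b) / d - (p : ℝ) / q| ≤ c / ((q : ℝ) ^ 2 * L))).card := by
    rw [Finset.card_filter, Finset.sum_product]
    refine Finset.sum_congr rfl fun a _ => ?_
    rw [Finset.card_filter]
  have h2 : ∀ a ∈ B, (((range d).filter (fun b : ℕ => ∃ p : ℤ,
      |((s : ℝ) * ∑ i, (a i : ℝ) * x i + d * β + b) / d - (p : ℝ) / q| ≤ c / ((q : ℝ) ^ 2 * L))).card : ℝ) ≤
      4 * c * d / (q * L) + (g : ℝ) *
      (if et c e d q < 1 / 2 ∧ nd (((s : ℝ) * ∑ i, (a i : ℝ) * x i + d * β) * ((q / g : ℕ) : ℝ)) ≤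
        et c e d q then 1 else 0) := by
    intro a _
    exact hC ((s : ℝ) * ∑ i, (a i : ℝ) * x i + d * β) c e d q hc hd hq
  rw [h1, Nat.cast_sum]
  refine (Finset.sum_le_sum h2).trans ?_
  rw [Finset.sum_add_distrib, ← Finset.mul_sum, Finset.sum_const, nsmul_eq_mul, hBcard]
  have h3 : (∑ a ∈ B, (if et c e d q < 1 / 2 ∧
      nd (((s : ℝ) * ∑ i, (a i : ℝ) * x i + d * β) * ((q / g : ℕ) : ℝ)) ≤ et c e d q then (1 : ℝ) else 0)) =
      ((B.filter (fun a : Fin m → ℕ => et c e d q < 1 / 2 ∧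
        nd (((s : ℝ) * ∑ i, (a i : ℝ) * x i + d * β) * ((q / g : ℕ) : ℝ)) ≤ et c e d q)).card : ℝ) := by
    rw [Finset.card_filter]
    push_cast
    rfl
  rw [h3]
  have h4 := W_boundB hF m x (et c e d q) (d * β) M s (q / g) hη hs hq'1 hx
  rw [← hB] at h4
  have h5 := mul_le_mul_of_nonneg_left h4 (Nat.cast_nonneg (α := ℝ) g)
  refine (add_le_add_right h5 _).trans (le_of_eq ?_)
  have h6 : (g : ℝ) * (12 * et c e d q * (∏ i, (M i : ℝ)) +
      24 * et c e d q * ∑ h ∈ Ico 1 ⌊1 / (2 * et c e d q)⌋₊, PV x M (s * (h * (q / g)))) =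
      12 * ((g : ℝ) * et c e d q) * (∏ i, (M i : ℝ)) + 24 * (((g : ℝ) * et c e d q) *
        ∑ h ∈ Ico 1 ⌊1 / (2 * et c e d q)⌋₊, PV x M (s * (h * (q / g)))) := by ring
  rw [h6, hgη]
  have h7 : 12 * ((d : ℝ) * tq e c q) * (∏ i, (M i : ℝ)) = 12 * c * ((∏ i, (M i : ℝ)) * d) / (q * L) := by
    unfold tq
    rw [← hL]
    ring
  rw [h7]
  ring

theorem pm_nonnegB {m : ℕ} (θ : Fin m → ℝ) (M : Fin m → ℕ) (h : ℕ) : 0 ≤ PV θ M h := by
  refine Finset.prod_nonneg fun i _ => le_min (by positivity) ?_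
  exact div_nonneg zero_le_one (Pool.Agent.Helper71.LF.nd_nonneg _)

/-- **LFU-FIN** with a shift -/
theorem finum (hS : GSch) (hCn : CntStmt) (hF : GFouM) (hB : GBlkM) (hL : GLog) : StmtGM := by
  intro e he
  refine ⟨16 * (1 + 1 / e) + 1, ?_⟩
  intro m x hm halg hind c A α hc hAα
  have hSx : SchP x := hS m x halg hind
  have hnd : ∀ h : ℕ, 1 ≤ h → ∀ i, 0 < nd (h * x i) :=
    fun h hh i => Pool.Agent.Helper71.LF.nd_pos hSx h hh i
  by_cases hα : 0 ≤ α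
  swap
  · refine ⟨2, fun β M d s hK hs hsK => ?_⟩
    exfalso
    have hα' : α < 0 := not_le.1 hα
    have hK' : (2 : ℝ) ≤ (∏ i, (M i : ℝ)) * d := by exact_mod_cast hK
    have h2 : ((∏ i, (M i : ℝ)) * d) ^ α < 1 := Real.rpow_lt_one_of_one_lt_of_neg (by linarith) hα'
    have h3 : (1 : ℝ) ≤ s := by exact_mod_cast hs
    linarith
  obtain ⟨κ, N0, hκ, hN0⟩ := hB m x hSx e c A α he hc hα hAα
  obtain ⟨N1, hN12, hN1⟩ :=
    Pool.Agent.Helper71.LF.log_small 1 e c (2 * κ) hc (by positivity) le_rfl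
  refine ⟨max N0 N1, ?_⟩
  intro β M d s hK hs hsK Q hQ
  obtain ⟨K, hKdef⟩ : ∃ K : ℕ, K = (∏ i, M i) * d := ⟨_, rfl⟩
  have hKR : (∏ i, (M i : ℝ)) * d = (K : ℝ) := by rw [hKdef]; push_cast; rfl
  have hblk := hN0 M d s (le_trans (le_max_left _ _) hK) hs (by
    rw [← hKdef, ← hKR]; exact hsK)
  rw [← hKdef] at hK hblk
  rw [hKR] at hsK
  have hKa : N1 ≤ K := le_trans (le_max_right _ _) hK
  have hK2 : 2 ≤ K := le_trans hN12 hKa
  have hd : 1 ≤ d := by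
    rcases Nat.eq_zero_or_pos d with h | h
    · rw [h, mul_zero] at hKdef; omega
    · exact h
  have hKpos : (0 : ℝ) < K := by exact_mod_cast (by omega : 0 < K)
  have hKone : (1 : ℝ) ≤ K := by exact_mod_cast (by omega : 1 ≤ K)
  simp only [hKR]
  obtain ⟨X, hX⟩ : ∃ X : ℕ, X = ⌊(K : ℝ) ^ A⌋₊ := ⟨_, rfl⟩
  obtain ⟨Q', hQ'⟩ : ∃ Q' : ℕ, Q' = ⌈Q⌉₊ := ⟨_, rfl⟩
  have hQQ : Q ≤ Q' := by rw [hQ']; exact Nat.le_ceil Q
  have hQ2 : 2 ≤ Q' := by
    have : (2 : ℝ) ≤ Q' := hQ.trans hQQ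
    exact_mod_cast this
  have hQ0 : (0 : ℝ) < Q := by linarith
  have hlQ : 0 < Real.log Q := Real.log_pos (by linarith)
  have hlQe : 0 < Real.log Q ^ e := Real.rpow_pos_of_pos hlQ _
  have hlQQ : Real.log Q ≤ Real.log Q' := Real.log_le_log hQ0 hQQ
  have hlQQe : Real.log Q ^ e ≤ Real.log Q' ^ e := Real.rpow_le_rpow hlQ.le hlQQ he.le
  obtain ⟨S, hSdef⟩ : ∃ S : ℕ → Finset ((Fin m → ℕ) × ℕ), S = fun q : ℕ =>
    ((Fintype.piFinset (fun i : Fin m => Icc 1 (M i)) ×ˢ range d).filter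
        (fun y : (Fin m → ℕ) × ℕ => ∃ p : ℤ,
          |β + ((s : ℝ) * ∑ i, (y.1 i : ℝ) * x i + y.2) / d - (p : ℝ) / (q : ℝ)|
            ≤ c / ((q : ℝ) ^ 2 * Real.log (q : ℝ) ^ (1 + e)))) := ⟨_, rfl⟩
  have hsub : {y : (Fin m → ℕ) × ℕ | (∀ i, 1 ≤ y.1 i ∧ y.1 i ≤ M i) ∧ y.2 < d ∧
        ∃ (p : ℤ) (q : ℕ), Q ≤ q ∧ (q : ℝ) ≤ (K : ℝ) ^ A ∧
        |β + ((s : ℝ) * ∑ i, (y.1 i : ℝ) * x i + y.2) / d - (p : ℝ) / (q : ℝ)|
          ≤ c / ((q : ℝ) ^ 2 * Real.log (q : ℝ) ^ (1 + e))} ⊆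
      (((Icc Q' X).biUnion S : Finset ((Fin m → ℕ) × ℕ)) : Set ((Fin m → ℕ) × ℕ)) := by
    rintro y ⟨hy1, hy2, p, q, hq1, hq2, hq3⟩
    rw [Finset.mem_coe, Finset.mem_biUnion]
    refine ⟨q, Finset.mem_Icc.2 ⟨?_, ?_⟩, ?_⟩
    · rw [hQ']; exact Nat.ceil_le.2 hq1
    · rw [hX]; exact Nat.le_floor hq2
    · rw [hSdef]
      refine Finset.mem_filter.2 ⟨Finset.mem_product.2 ⟨?_, Finset.mem_range.2 hy2⟩, p, hq3⟩
      rw [Fintype.mem_piFinset]
      intro i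
      exact Finset.mem_Icc.2 (hy1 i)
  have hcard := Set.ncard_le_ncard hsub (Finset.finite_toSet _)
  rw [Set.ncard_coe_finset] at hcard
  have hcard2 : ({y : (Fin m → ℕ) × ℕ | (∀ i, 1 ≤ y.1 i ∧ y.1 i ≤ M i) ∧ y.2 < d ∧
        ∃ (p : ℤ) (q : ℕ), Q ≤ q ∧ (q : ℝ) ≤ (K : ℝ) ^ A ∧
        |β + ((s : ℝ) * ∑ i, (y.1 i : ℝ) * x i + y.2) / d - (p : ℝ) / (q : ℝ)|
          ≤ c / ((q : ℝ) ^ 2 * Real.log (q : ℝ) ^ (1 + e))}.ncard : ℝ) ≤
      ∑ q ∈ Icc Q' X, ((S q).card : ℝ) := by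
    have := hcard.trans Finset.card_biUnion_le
    exact_mod_cast this
  refine hcard2.trans ?_
  rcases lt_or_ge X Q' with hXQ | hXQ
  · rw [Finset.Icc_eq_empty (by omega), Finset.sum_empty]
    have : 0 < 1 / e := by positivity
    positivity
  have hsum : ∑ q ∈ Icc Q' X, ((S q).card : ℝ) ≤
      ∑ q ∈ Icc Q' X, (16 * c * (K : ℝ) / (q * Real.log q ^ (1 + e)) +
        24 * ((d : ℝ) * tq e c q *
          ∑ h ∈ Ico 1 ⌊1 / (2 * Pool.Agent.Helper87.MD.et c e d q)⌋₊,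
            PV x M (s * (h * (q / Nat.gcd d q))))) := by
    refine Finset.sum_le_sum fun q hq => ?_
    have := oneqM hCn hF m x e c β M d s q he hc hd hs (hQ2.trans (Finset.mem_Icc.1 hq).1) hnd
    rw [hKR] at this
    rw [hSdef]
    exact this
  refine hsum.trans ?_
  rw [Finset.sum_add_distrib]
  have hpe : 0 < 1 + 1 / e := by positivity
  have hA : ∑ q ∈ Icc Q' X, 16 * c * (K : ℝ) / (q * Real.log q ^ (1 + e)) ≤
      16 * (1 + 1 / e) * c * (K : ℝ) / Real.log Q ^ e := by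
    have h5 : ∑ q ∈ Icc Q' X, 16 * c * (K : ℝ) / (q * Real.log q ^ (1 + e)) =
        16 * c * (K : ℝ) *
          ∑ q ∈ Icc Q' X, 1 / ((q : ℝ) * Real.log q ^ (1 + e)) := by
      rw [Finset.mul_sum]
      refine Finset.sum_congr rfl fun q _ => ?_
      ring
    rw [h5]
    have h6 := mul_le_mul_of_nonneg_left (hL e he Q' X hQ2)
      (by positivity : (0 : ℝ) ≤ 16 * c * (K : ℝ))
    refine h6.trans ?_
    have h7 : (1 + 1 / e) / Real.log Q' ^ e ≤ (1 + 1 / e) / Real.log Q ^ e :=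
      div_le_div_of_nonneg_left hpe.le hlQe hlQQe
    have h8 := mul_le_mul_of_nonneg_left h7 (by positivity : (0 : ℝ) ≤ 16 * c * (K : ℝ))
    refine h8.trans (le_of_eq ?_)
    ring
  have hBB : ∑ q ∈ Icc Q' X, 24 * ((d : ℝ) * tq e c q *
          ∑ h ∈ Ico 1 ⌊1 / (2 * Pool.Agent.Helper87.MD.et c e d q)⌋₊,
            PV x M (s * (h * (q / Nat.gcd d q)))) ≤
      24 * (K : ℝ) ^ (1 - κ) := by
    rw [← Finset.mul_sum]
    refine mul_le_mul_of_nonneg_left ?_ (by norm_num)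
    refine le_trans ?_ hblk
    rw [← hX]
    refine Finset.sum_le_sum_of_subset_of_nonneg ?_ ?_
    · exact Finset.Icc_subset_Icc hQ2 le_rfl
    · intro q hq _
      exact mul_nonneg (mul_nonneg (Nat.cast_nonneg _)
        (Pool.Agent.Helper71.LF.tq_pos hc (Finset.mem_Icc.1 hq).1).le)
        (Finset.sum_nonneg fun h _ => pm_nonnegB _ _ _)
  have hC : 24 * (K : ℝ) ^ (1 - κ) ≤ c * (K : ℝ) / Real.log Q ^ e := by
    rw [le_div_iff₀ hlQe]
    have hQK : Q ≤ (K : ℝ) := by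
      have h5 : (Q' : ℝ) ≤ X := by exact_mod_cast hXQ
      have h6 : (X : ℝ) ≤ (K : ℝ) ^ A := by
        rw [hX]
        exact Nat.floor_le (Real.rpow_nonneg hKpos.le _)
      have h7 : (K : ℝ) ^ A ≤ (K : ℝ) ^ (1 : ℝ) :=
        Real.rpow_le_rpow_of_exponent_le hKone (by linarith)
      rw [Real.rpow_one] at h7
      linarith
    have hlog : Real.log Q ≤ ((1 : ℕ) : ℝ) * Real.log K := by
      rw [Nat.cast_one, one_mul]
      exact Real.log_le_log hQ0 hQK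
    have h8 : Real.log Q ^ e ≤ (((1 : ℕ) : ℝ) * Real.log K) ^ e :=
      Real.rpow_le_rpow hlQ.le hlog he.le
    have h9 := hN1 K hKa
    rw [mul_div_cancel_left₀ κ (two_ne_zero)] at h9
    have h10 : (0 : ℝ) ≤ (K : ℝ) ^ (1 - κ) := Real.rpow_nonneg hKpos.le _
    calc 24 * (K : ℝ) ^ (1 - κ) * Real.log Q ^ e
        ≤ 24 * (K : ℝ) ^ (1 - κ) * (((1 : ℕ) : ℝ) * Real.log K) ^ e := by gcongr
      _ = (K : ℝ) ^ (1 - κ) * (24 * (((1 : ℕ) : ℝ) * Real.log K) ^ e) := by ring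
      _ ≤ (K : ℝ) ^ (1 - κ) * (c * (K : ℝ) ^ κ) := by gcongr
      _ = c * (K : ℝ) := by
          have : (K : ℝ) ^ (1 - κ) * (K : ℝ) ^ κ = (K : ℝ) := by
            rw [← Real.rpow_add hKpos, sub_add_cancel, Real.rpow_one]
          rw [mul_left_comm, this]
  calc _ ≤ 16 * (1 + 1 / e) * c * (K : ℝ) / Real.log Q ^ e +
        c * (K : ℝ) / Real.log Q ^ e := add_le_add hA (hBB.trans hC)
    _ = (16 * (1 + 1 / e) + 1) * c * (K : ℝ) / Real.log Q ^ e := by ring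

end Pool.Agent.Helper92.UM
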