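import Pool.Agent.Helper92.UM.MainUM
import Pool.Agent.Helper92.UM.FOUM
import Pool.Agent.Helper92.UM.BLKM
import Pool.Agent.Helper92.UM.QFM
import Pool.Agent.Helper73.LF.Final
import Pool.Agent.Helper87.MD.Asm

set_option autoImplicit false

namespace Pool.Agent.Helper92.UM

open Pool.Agent.Helper73.LF

theorem stmtGM : StmtGM :=
  finum gsch Pool.Agent.Helper34.MD.mdCNT foum (blkm_of gsum) glog

/-- The main theorem. -/
theorem final : MainUM := mainUM Pool.Agent.Helper87.MD.main stmtGM

end Pool.Agent.Helper92.UM
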