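import Pool.Agent.Helper92.LFU.BLKU
import Pool.Agent.Helper37.LF.FOU
import Pool.Agent.Helper71.LF.FIN

/-!
# MP_c307ca_nt, form UM: boxes of any shape and position
-/

set_option autoImplicit false

open Finset
open scoped Classical

namespace Pool.Agent.Helper92.UM

open Pool.Agent.Helper98.Lang Pool.Agent.Helper73.LF

/-- the product over the coordinates, box with sides `M i` -/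
noncomputable def PV {m : ℕ} (θ : Fin m → ℝ) (M : Fin m → ℕ) (h : ℕ) : ℝ :=
  ∏ i, min (M i : ℝ) (1 / nd (h * θ i))

/-- the Fourier bound for the box with sides `M i`, with a shift -/
def GFouM : Prop := ∀ (m : ℕ) (M : Fin m → ℕ) (T : ℕ) (θ : Fin m → ℝ) (γ : ℝ), 1 ≤ T →
  (∀ h : ℕ, 1 ≤ h → ∀ i, 0 < nd (h * θ i)) →
  ∀ S : Finset (Fin m → ℕ),
    (∀ a ∈ S, (∀ i, 1 ≤ a i ∧ a i ≤ M i) ∧ nd (∑ i, (a i : ℝ) * θ i + γ) ≤ 1 / (2 * T)) →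
    (S.card : ℝ) ≤ 3 / T * ((∏ i, (M i : ℝ)) + 2 * ∑ h ∈ Ico 1 T, PV θ M h)

/-- the second terms -/
def GBlkM : Prop := ∀ (m : ℕ) (x : Fin m → ℝ), SchP x → ∀ e c A α : ℝ, 0 < e → 0 < c →
  0 ≤ α → A + α < 1 → ∃ (κ : ℝ) (N0 : ℕ), 0 < κ ∧ ∀ (M : Fin m → ℕ) (d s : ℕ),
    N0 ≤ (∏ i, M i) * d → 1 ≤ s → (s : ℝ) ≤ (((∏ i, M i) * d : ℕ) : ℝ) ^ α →
    ∑ q ∈ Icc 2 ⌊(((∏ i, M i) * d : ℕ) : ℝ) ^ A⌋₊, (d : ℝ) * tq e c q *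
        ∑ h ∈ Ico 1 ⌊1 / (2 * Pool.Agent.Helper87.MD.et c e d q)⌋₊,
          PV x M (s * (h * (q / Nat.gcd d q)))
      ≤ (((∏ i, M i) * d : ℕ) : ℝ) ^ (1 - κ)

/-- the case `A + α < 1` -/
def StmtGM : Prop := ∀ e : ℝ, 0 < e → ∃ C : ℝ, ∀ (m : ℕ) (x : Fin m → ℝ), 1 ≤ m →
  (∀ i, IsAlgebraic ℚ (x i)) → Indep x → ∀ c A α : ℝ, 0 < c → A + α < 1 →
  ∃ N0 : ℕ, ∀ (β : ℝ) (M : Fin m → ℕ) (d s : ℕ), N0 ≤ (∏ i, M i) * d → 1 ≤ s →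
    (s : ℝ) ≤ ((∏ i, (M i : ℝ)) * d) ^ α →
    ∀ Q : ℝ, 2 ≤ Q →
    ({y : (Fin m → ℕ) × ℕ | (∀ i, 1 ≤ y.1 i ∧ y.1 i ≤ M i) ∧ y.2 < d ∧ ∃ (p : ℤ) (q : ℕ), Q ≤ q ∧
        (q : ℝ) ≤ ((∏ i, (M i : ℝ)) * d) ^ A ∧
        |β + ((s : ℝ) * ∑ i, (y.1 i : ℝ) * x i + y.2) / d - (p : ℝ) / (q : ℝ)|
          ≤ c / ((q : ℝ) ^ 2 * Real.log (q : ℝ) ^ (1 + e))}.ncard : ℝ)
      ≤ C * c * ((∏ i, (M i : ℝ)) * d) / Real.log Q ^ e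

/-- the final statement -/
def MainUM : Prop := ∀ ε ε' : ℝ, 0 < ε → 0 ≤ ε' → ε' < ε →
  ∃ C : ℝ, ∀ (m : ℕ) (x : Fin m → ℝ), 1 ≤ m → (∀ i, IsAlgebraic ℚ (x i)) →
  (∀ (u : ℤ) (v : Fin m → ℤ), (u : ℝ) + ∑ i, (v i : ℝ) * x i = 0 → u = 0 ∧ v = 0) →
  ∀ c A α : ℝ, 0 < c → α < 1 →
  ∃ N0 : ℕ, ∀ (M : Fin m → ℕ) (d s : ℕ) (β : ℝ), (m = 1 ∧ β = 0) ∨ A + α < 1 →
    N0 ≤ (∏ i, M i) * d → 1 ≤ s →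
    (s : ℝ) ≤ ((∏ i, (M i : ℝ)) * d) ^ α → ∀ Q : ℝ, 2 ≤ Q →
    ({y : (Fin m → ℕ) × ℕ | (∀ i, 1 ≤ y.1 i ∧ y.1 i ≤ M i) ∧ y.2 < d ∧ ∃ (p : ℤ) (q : ℕ), Q ≤ q ∧
        (q : ℝ) ≤ ((∏ i, (M i : ℝ)) * d) ^ A ∧
        |β + ((s : ℝ) * ∑ i, (y.1 i : ℝ) * x i + y.2) / d - (p : ℝ) / (q : ℝ)|
          ≤ c / ((q : ℝ) ^ 2 * Real.log (q : ℝ) ^ (1 + ε))}.ncard : ℝ)
      ≤ C * c * ((∏ i, (M i : ℝ)) * d) / Real.log Q ^ ε'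

end Pool.Agent.Helper92.UM
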